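import Pool.Agent.K1H76.OM.Stm

set_option autoImplicit false

/-! Euler product of the correction factor: `t_F4`. -/

namespace Pool.Agent.K1H94.OM

open Pool.Agent.K1H76.OM
open Finset Filter Topology

lemma cpow_pow (p e : ℕ) (s : ℂ) : ((p ^ e : ℕ) : ℂ) ^ s = ((p : ℂ) ^ s) ^ e := by
  induction e with
  | zero => simp
  | succ e ih =>
    rw [pow_succ, Nat.cast_mul, Complex.natCast_mul_natCast_cpow, ih, pow_succ]

lemma local_factor (z : ℂ) (hz : ‖z‖ < 1 / 2) :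
    ∑' e : ℕ, ((4 / 9 : ℂ) * (-2) ^ e + 2 / 9 + ((e : ℂ) + 1) / 3) * z ^ e =
      (1 - 3 * z ^ 2 + 2 * z ^ 3)⁻¹ := by
  have h1 : ‖(-2 : ℂ) * z‖ < 1 := by
    rw [norm_mul]
    have : ‖(-2 : ℂ)‖ = 2 := by simp
    rw [this]
    linarith
  have h2 : ‖z‖ < 1 := by linarith
  have s1 := (hasSum_geometric_of_norm_lt_one h1).mul_left (4 / 9 : ℂ)
  have s2 := (hasSum_geometric_of_norm_lt_one h2).mul_left (2 / 9 : ℂ)
  have s3 := (hasSum_choose_mul_geometric_of_norm_lt_one 1 h2).mul_left (1 / 3 : ℂ)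
  have s4 := (s1.add s2).add s3
  have e1 : (fun e : ℕ => ((4 / 9 : ℂ) * (-2) ^ e + 2 / 9 + ((e : ℂ) + 1) / 3) * z ^ e) =
      fun e : ℕ => (4 / 9 : ℂ) * (-2 * z) ^ e + 2 / 9 * z ^ e +
        1 / 3 * (((e + 1).choose 1 : ℕ) * z ^ e) := by
    funext e
    rw [mul_pow, Nat.choose_one_right]
    push_cast
    ring
  rw [e1, s4.tsum_eq]
  have h3 : (1 : ℂ) - z ≠ 0 := by
    intro h
    have : z = 1 := (sub_eq_zero.1 h).symm
    rw [this, norm_one] at hz
    norm_num at hz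
  have h4 : (1 : ℂ) - -2 * z ≠ 0 := by
    intro h
    have : -2 * z = 1 := (sub_eq_zero.1 h).symm
    rw [this, norm_one] at h1
    exact lt_irrefl _ h1
  have h5 : (1 - 3 * z ^ 2 + 2 * z ^ 3 : ℂ) = (1 - -2 * z) * (1 - z) ^ 2 := by ring
  have h6 : (1 + 2 * z : ℂ) ≠ 0 := by
    intro h
    apply h4
    linear_combination h
  have h7 : (1 : ℂ) - -2 * z = 1 + 2 * z := by ring
  rw [h5, h7]
  field_simp
  ring

lemma norm_lt (p : ℕ) (hp : p.Prime) (h2 : p ≠ 2) (s : ℂ) (hs : 9 / 10 < s.re) :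
    ‖((p : ℂ) ^ s)⁻¹‖ < 1 / 2 := by
  have h3 : 3 ≤ p := by
    have := hp.two_le
    omega
  rw [norm_inv, Complex.norm_natCast_cpow_of_pos hp.pos, one_div]
  have h4 : (2 : ℝ) < (p : ℝ) ^ s.re := by
    have h5 : (2 : ℝ) < (3 : ℝ) ^ (9 / 10 : ℝ) := by
      have h6 : (2 : ℝ) = ((2 : ℝ) ^ (10 : ℝ)) ^ (1 / 10 : ℝ) := by
        rw [← Real.rpow_mul (by norm_num)]
        norm_num
      have h7 : (3 : ℝ) ^ (9 / 10 : ℝ) = ((3 : ℝ) ^ (9 : ℝ)) ^ (1 / 10 : ℝ) := by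
        rw [← Real.rpow_mul (by norm_num)]
        norm_num
      rw [h7]
      calc (2 : ℝ) = ((2 : ℝ) ^ (10 : ℝ)) ^ (1 / 10 : ℝ) := h6
        _ < ((3 : ℝ) ^ (9 : ℝ)) ^ (1 / 10 : ℝ) := by
          apply Real.rpow_lt_rpow (by positivity) _ (by norm_num)
          have e1 : (2 : ℝ) ^ (10 : ℝ) = 2 ^ (10 : ℕ) := by
            rw [← Real.rpow_natCast]; norm_num
          have e2 : (3 : ℝ) ^ (9 : ℝ) = 3 ^ (9 : ℕ) := by
            rw [← Real.rpow_natCast]; norm_num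
          rw [e1, e2]
          norm_num
    have h3' : (3 : ℝ) ≤ p := by exact_mod_cast h3
    calc (2 : ℝ) < (3 : ℝ) ^ (9 / 10 : ℝ) := h5
      _ ≤ (p : ℝ) ^ (9 / 10 : ℝ) := Real.rpow_le_rpow (by norm_num) h3' (by norm_num)
      _ ≤ (p : ℝ) ^ s.re := Real.rpow_le_rpow_of_exponent_le (by linarith) hs.le
  exact inv_strictAnti₀ (by norm_num) h4

theorem t_F4 (hX : S_HX) (hS : S_HS) : S_F4 := by
  intro s hs
  obtain ⟨-, hmul, hh2, hhp⟩ := hX
  have hsum : LSeriesSummable (fun n => (ho n : ℂ)) s := by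
    unfold LSeriesSummable
    rw [← summable_norm_iff]
    refine Summable.of_nonneg_of_le (fun n => norm_nonneg _) (fun n => ?_) hS
    rw [LSeries.norm_term_eq]
    split_ifs with h
    · positivity
    · have h1 : (1 : ℝ) ≤ n := by exact_mod_cast Nat.one_le_iff_ne_zero.2 h
      rw [Complex.norm_real, Real.norm_eq_abs, div_eq_mul_inv, ← Real.rpow_neg (by positivity)]
      apply mul_le_mul_of_nonneg_left _ (abs_nonneg _)
      exact Real.rpow_le_rpow_of_exponent_le h1 (by linarith)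
  refine ⟨hsum, ?_⟩
  set f : ℕ → ℂ := LSeries.term (fun n => (ho n : ℂ)) s with hf
  have f0 : f 0 = 0 := by simp [hf]
  have ho1 : ho 1 = 1 := hmul.map_one
  have f1 : f 1 = 1 := by
    rw [hf, LSeries.term_of_ne_zero one_ne_zero, ho1]
    simp
  have fm : ∀ {m n : ℕ}, m.Coprime n → f (m * n) = f m * f n := by
    intro m n h
    by_cases hm : m = 0
    · rw [hm, zero_mul, f0, zero_mul]
    by_cases hn : n = 0
    · rw [hn, mul_zero, f0, mul_zero]
    rw [hf, LSeries.term_of_ne_zero (mul_ne_zero hm hn), LSeries.term_of_ne_zero hm,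
      LSeries.term_of_ne_zero hn, hmul.map_mul_of_coprime h, Nat.cast_mul,
      Complex.natCast_mul_natCast_cpow]
    push_cast
    rw [div_mul_div_comm]
  have hP := EulerProduct.eulerProduct_hasProd f1 fm (summable_norm_iff.2 hsum) f0
  have key : (fun p : Nat.Primes => ∑' e : ℕ, f ((p : ℕ) ^ e)) =
      fun p : Nat.Primes => if (p : ℕ) = 2 then (1 : ℂ) else
        (1 - 3 * ((p : ℕ) : ℂ) ^ (-(2 * s)) + 2 * ((p : ℕ) : ℂ) ^ (-(3 * s)))⁻¹ := by
    funext p
    have hp := p.2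
    have ht : ∀ e : ℕ, f ((p : ℕ) ^ e) = (ho ((p : ℕ) ^ e) : ℂ) * ((((p : ℕ) : ℂ) ^ s)⁻¹) ^ e := by
      intro e
      rw [hf, LSeries.term_of_ne_zero (pow_ne_zero _ hp.ne_zero), cpow_pow, inv_pow,
        div_eq_mul_inv]
    split_ifs with h2
    · rw [tsum_eq_single 0]
      · rw [pow_zero, f1]
      · intro e he
        rw [ht, h2, hh2 e (Nat.one_le_iff_ne_zero.2 he)]
        simp
    · set z : ℂ := (((p : ℕ) : ℂ) ^ s)⁻¹ with hz
      have e2 : ((p : ℕ) : ℂ) ^ (-(2 * s)) = z ^ 2 := by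
        rw [Complex.cpow_neg, hz, inv_pow]
        congr 1
        have := Complex.cpow_nat_mul ((p : ℕ) : ℂ) 2 s
        push_cast at this
        exact this
      have e3 : ((p : ℕ) : ℂ) ^ (-(3 * s)) = z ^ 3 := by
        rw [Complex.cpow_neg, hz, inv_pow]
        congr 1
        have := Complex.cpow_nat_mul ((p : ℕ) : ℂ) 3 s
        push_cast at this
        exact this
      rw [e2, e3, ← local_factor z (norm_lt p hp h2 s hs)]
      congr 1
      funext e
      rw [ht, hhp p e hp h2]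
      push_cast
      ring
  rw [← key]
  exact hP

end Pool.Agent.K1H94.OM
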